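import Mathlib
import Pool.Agent.Lib.MP_46fb1e_lc.Main

/-!
If `CSP(B)` is in HerFO then `B` does not pp-construct the triangle.
-/

set_option autoImplicit false

namespace Pool.Agent.Results.MP_46fb1e_lc.NoTriangle

open FirstOrder FirstOrder.Language FirstOrder.Language.Structure
open Pool.Agent.Lib.MP_46fb1e_lc

/-- No structure `B` (finite or infinite) with `CSP(B)` in HerFO pp-constructs the triangle. -/
theorem result (L : FirstOrder.Language.{0, 0}) [L.IsRelational] (B : Type) [L.Structure B]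
    (hB : CSPInHerFO L B) : ¬ PPConstructsTriangle L B := by
  classical
  rintro ⟨d, Γ, hΓ, instΓ, p, q, ⟨f, hf⟩, ⟨g, hg⟩⟩
  obtain ⟨φ, hφ⟩ := hB
  obtain ⟨D, hD⟩ := slide_sentence φ
  -- the gadget is nonempty
  have hΓne : Nonempty Γ := by
    by_contra hcon
    rw [not_nonempty_iff] at hcon
    have hd : IsEmpty (Fin d) := ⟨fun k => hcon.false (p k)⟩
    have h1 := hf 0 1 (by decide)
    have h2 : f 1 = f 0 := funext fun k => hd.elim k
    rw [h2] at h1
    exact hg _ _ h1 rfl
  set n : ℕ := 2 * (D + 1) with hn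
  have hne : Even n := ⟨D + 1, by omega⟩
  have hn0 : n ≠ 0 := by omega
  let TT : Type := (Fin (n + 1) × Cls p q) ⊕ (Fin n × Γ) ⊕ (Fin (n + 1) × Γ)
  have : Finite TT := by
    change Finite ((Fin (n + 1) × Cls p q) ⊕ (Fin n × Γ) ⊕ (Fin (n + 1) × Γ))
    infer_instance
  set m : ℕ := Nat.card (Set TT) + 1 with hm
  have hnonempty : ∀ σ : Equiv.Perm (Fin m), Nonempty (GI p q (Gr m n σ)) := fun σ =>
    ⟨GI.inn (At.tri 0) hΓne.some⟩
  -- the original instance has no homomorphism to `B`
  have hno : ¬ HereditarilySatisfies L (GI p q (Gr m n 1)) φ := by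
    have := hnonempty 1
    intro h
    obtain ⟨H⟩ := (hφ (GI p q (Gr m n 1))).mpr h
    exact no_col hne (col_of_hom (Gr m n 1) hg H)
  unfold HereditarilySatisfies at hno
  push Not at hno
  obtain ⟨S, hS, hSφ⟩ := hno
  -- two wires of the same type
  let ty : Fin m → Set TT := fun k => {z | match z with
    | Sum.inl (t, K) => GI.vt (Vt.w k t) K ∈ S
    | Sum.inr (Sum.inl (t, γ)) => GI.inn (At.wl k t) γ ∈ S
    | Sum.inr (Sum.inr (t, γ)) => GI.inn (At.wn k t) γ ∈ S}
  obtain ⟨i, j, hij, hty⟩ : ∃ i j : Fin m, i < j ∧ ty i = ty j := by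
    by_contra hcon
    push Not at hcon
    have hinj : Function.Injective ty := by
      intro i j h
      rcases lt_trichotomy i j with h1 | h1 | h1
      · exact absurd h (hcon i j h1)
      · exact h1
      · exact absurd h.symm (hcon j i h1)
    have := Nat.card_le_card_of_injective ty hinj
    rw [Nat.card_eq_fintype_card, Fintype.card_fin] at this
    omega
  obtain ⟨S', hS', ⟨sl⟩⟩ := exists_slide (n := n) (i := i) (j := j) (top := D) (by omega) S
    (fun t K => Set.ext_iff.mp hty (Sum.inl (t, K)))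
    (fun t γ => Set.ext_iff.mp hty (Sum.inr (Sum.inl (t, γ))))
    (fun t γ => Set.ext_iff.mp hty (Sum.inr (Sum.inr (t, γ))))
  have h1 := hD S S' D sl le_rfl
  -- the rewired instance has a homomorphism to `B`
  have h2 : HereditarilySatisfies L (GI p q (Gr m n (Equiv.swap i j))) φ := by
    have := hnonempty (Equiv.swap i j)
    obtain ⟨χ, hχ⟩ := col_swap (n := n) hne hn0 hij
    exact (hφ (GI p q (Gr m n (Equiv.swap i j)))).mp (hom_of_col _ hf χ hχ)
  exact hSφ (h1.mpr (h2 S' (hS' hS)))

end Pool.Agent.Results.MP_46fb1e_lc.NoTriangle
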